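import Mathlib

set_option linter.unusedSimpArgs false

namespace Pool.Agent.H.MP_89bbb3_gt

structure Der (R : Type*) [CommRing R] where
  toFun : R → R
  add : ∀ f g, toFun (f + g) = toFun f + toFun g
  mul : ∀ f g, toFun (f * g) = toFun f * g + f * toFun g

instance {R : Type*} [CommRing R] : CoeFun (Der R) (fun _ => R → R) := ⟨Der.toFun⟩

section
variable {R : Type*} [CommRing R] (D : Der R)

lemma Der.map_add (f g : R) : D (f + g) = D f + D g := D.add f g
lemma Der.map_mul (f g : R) : D (f * g) = D f * g + f * D g := D.mul f g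
lemma Der.map_zero : D 0 = 0 := by
  have := D.map_add 0 0
  rw [add_zero] at this
  linear_combination -this
lemma Der.map_one : D 1 = 0 := by
  have := D.map_mul 1 1
  rw [mul_one, mul_one, one_mul] at this
  linear_combination -this
lemma Der.map_neg (f : R) : D (-f) = -D f := by
  have := D.map_add f (-f)
  rw [add_neg_cancel, D.map_zero] at this
  linear_combination -this
lemma Der.map_sub (f g : R) : D (f - g) = D f - D g := by
  rw [sub_eq_add_neg, D.map_add, D.map_neg, sub_eq_add_neg]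
lemma Der.map_two : D 2 = 0 := by
  rw [← one_add_one_eq_two, D.map_add, D.map_one, add_zero]
end

structure Tri (R : Type*) [CommRing R] where
  x : Der R
  y : Der R
  t : Der R
  yx : ∀ f, y (x f) = x (y f)
  tx : ∀ f, t (x f) = x (t f)
  ty : ∀ f, t (y f) = y (t f)
  half : ∀ f : R, 2 * f = 0 → f = 0

theorem ck_null {R : Type*} [CommRing R] [IsReduced R] (D : Tri R) (H a b c l : R)
    (Hx : D.x H = H) (Hy : D.y H = 0) (Ht : D.t H = 0) (Hu : IsUnit H)
    (exx : 2 * D.x a = l) (exy : 2 * D.y a + 2 * H * D.x b + D.x c = 0)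
    (ext : 2 * D.t a + D.x b = 0) (eyy : a * H + 2 * H * D.y b + D.y c = l * H)
    (eyt : D.t c + D.y b = l) (ett : D.t b = 0) (nul : a * a + b * b * H + b * c = 0) :
    a = 0 ∧ b = 0 := by
  obtain ⟨Dx, Dy, Dt, yx, tx, ty, half⟩ := D
  simp only at *
  have hz : ∀ f : R, f * H = 0 → f = 0 := fun f hf => (Hu.mul_left_eq_zero).1 hf
  -- l_t = - b_xx
  have e1 : Dt l = -Dx (Dx b) := by
    have h1 := congrArg Dt exx
    have h2 := congrArg Dx ext
    simp only [Der.map_add, Der.map_mul, Der.map_two, Der.map_zero, yx, tx, ty] at h1 h2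
    linear_combination -h1 + h2
  -- l_x = 2 b_xy
  have e2 : Dx l = 2 * Dx (Dy b) := by
    have h1 := congrArg Dt exy
    have h2 := congrArg Dy ext
    have h3 := congrArg Dx eyt
    simp only [Der.map_add, Der.map_mul, Der.map_two, Der.map_zero, yx, tx, ty, Ht, ett] at h1 h2 h3
    linear_combination h1 - h2 - h3
  -- b_xxx = 0
  have e3 : Dx (Dx (Dx b)) = 0 := by
    have h1 := congrArg Dt e2
    have h2 := congrArg Dx e1
    simp only [Der.map_add, Der.map_mul, Der.map_two, Der.map_zero, Der.map_neg, yx, tx, ty, Ht,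
      ett] at h1 h2
    linear_combination h2 - h1
  -- t-derivative of yy
  have e4 : -Dx b * H + 2 * Dy l - 2 * Dy (Dy b) + 2 * Dx (Dx b) * H = 0 := by
    have h1 := congrArg Dt eyy
    have h3 := congrArg Dy eyt
    simp only [Der.map_add, Der.map_mul, Der.map_two, Der.map_zero, Der.map_neg, yx, tx, ty, Ht,
      ett, e1] at h1 h3
    linear_combination 2 * h1 - H * ext - 2 * h3
  have e5 : Dx (Dx (Dy b)) = 0 := by
    have h1 := congrArg Dt e4
    have h2 := congrArg Dy e1
    simp only [Der.map_add, Der.map_sub, Der.map_mul, Der.map_two, Der.map_zero, Der.map_neg,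
      yx, tx, ty, Ht, ett] at h1 h2
    apply half
    linear_combination 2 * h2 - h1
  have e6 : Dx (Dx b) * H - Dx b * H + 2 * Dx (Dy (Dy b)) = 0 := by
    have h1 := congrArg Dx e4
    have h2 := congrArg Dy e2
    simp only [Der.map_add, Der.map_sub, Der.map_mul, Der.map_two, Der.map_zero, Der.map_neg,
      yx, tx, ty, Hx, e3] at h1 h2
    linear_combination h1 - 2 * h2
  have e7 : Dx b = 0 := by
    have h1 := congrArg Dx e6
    have h2 := congrArg Dy e5
    simp only [Der.map_add, Der.map_sub, Der.map_mul, Der.map_two, Der.map_zero, Der.map_neg,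
      yx, tx, ty, Hx, e3] at h1 h2
    apply hz
    linear_combination 2 * h2 - h1
  have e8 : Dx l = 0 := by
    rw [e2, ← yx, e7, Der.map_zero, mul_zero]
  have e9 : Dx (Dx a) = 0 := by
    have h1 := congrArg Dx exx
    simp only [Der.map_add, Der.map_mul, Der.map_two, Der.map_zero, e8] at h1
    apply half
    linear_combination h1
  have e10 : Dx (Dx (Dx c)) = 0 := by
    have h1 := congrArg Dx (congrArg Dx exy)
    have h2 := congrArg Dy e9
    simp only [Der.map_add, Der.map_mul, Der.map_two, Der.map_zero, e7, yx, mul_zero,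
      add_zero, zero_mul] at h1 h2
    linear_combination h1 - 2 * h2
  have e11 : b = 0 := by
    have h1 := congrArg Dx (congrArg Dx (congrArg Dx nul))
    simp only [Der.map_add, Der.map_mul, Der.map_two, Der.map_zero, e7, e9, e10, Hx, mul_zero,
      add_zero, zero_mul, zero_add] at h1
    have h2 : b * b = 0 := hz _ h1
    exact IsNilpotent.eq_zero ⟨2, by rw [pow_two]; exact h2⟩
  refine ⟨?_, e11⟩
  rw [e11] at nul
  exact IsNilpotent.eq_zero ⟨2, by rw [pow_two]; linear_combination nul⟩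

theorem lie {R : Type*} [CommRing R] (D : Fin 3 → Der R)
    (comm : ∀ i j f, D i (D j f) = D j (D i f)) (k : Fin 3 → R) (X Y T F : R)
    (m : Fin 3 → Fin 3 → R)
    (hm : ∀ i j, 2 * (D i X * D j X) + D i T * D j Y + D j T * D i Y
      + 2 * (F * (D i Y * D j Y)) = m i j)
    (kX : k 0 * D 0 X + k 1 * D 1 X + k 2 * D 2 X = 0)
    (kY : k 0 * D 0 Y + k 1 * D 1 Y + k 2 * D 2 Y = 0)
    (kT : k 0 * D 0 T + k 1 * D 1 T + k 2 * D 2 T = 2)
    (kF : k 0 * D 0 F + k 1 * D 1 F + k 2 * D 2 F = 0) (i j : Fin 3) :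
    k 0 * D 0 (m i j) + k 1 * D 1 (m i j) + k 2 * D 2 (m i j)
      + (D i (k 0) * m 0 j + D i (k 1) * m 1 j + D i (k 2) * m 2 j)
      + (D j (k 0) * m i 0 + D j (k 1) * m i 1 + D j (k 2) * m i 2) = 0 := by
  have key : ∀ (A c : R), (∀ n, D n c = 0) → k 0 * D 0 A + k 1 * D 1 A + k 2 * D 2 A = c → ∀ n,
      D n (k 0) * D 0 A + D n (k 1) * D 1 A + D n (k 2) * D 2 A
        + (k 0 * D 0 (D n A) + k 1 * D 1 (D n A) + k 2 * D 2 (D n A)) = 0 := by
    intro A c hc h n
    have h1 := congrArg (D n) h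
    simp only [Der.map_add, Der.map_mul, hc] at h1
    rw [comm n 0, comm n 1, comm n 2] at h1
    linear_combination h1
  have hX := key X 0 (fun n => (D n).map_zero) kX
  have hY := key Y 0 (fun n => (D n).map_zero) kY
  have hT := key T 2 (fun n => (D n).map_two) kT
  simp only [← hm, Der.map_add, Der.map_mul, Der.map_two]
  linear_combination (2 * D j X) * hX i + (2 * D i X) * hX j + D j Y * hT i + D i Y * hT j
    + (D j T + 2 * F * D j Y) * hY i + (D i T + 2 * F * D i Y) * hY j
    + (2 * D i Y * D j Y) * kF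

theorem no_iso {R : Type*} [CommRing R] [IsReduced R] [Nontrivial R] (D : Fin 3 → Der R)
    (comm : ∀ i j f, D i (D j f) = D j (D i f)) (hf : R) (h2 : 2 * hf = 1)
    (H Hi X Y T E Ei P Q : R) (HH : H * Hi = 1) (EE : E * Ei = 1)
    (Hx : D 0 H = H) (Hy : D 1 H = 0) (Ht : D 2 H = 0) (hP : ∀ i, D i P = Q * D i Y)
    (hm : ∀ i j, 2 * (D i X * D j X) + D i T * D j Y + D j T * D i Y
      + 2 * ((X * X * X + P * X) * (D i Y * D j Y))
        = E * !![2, 0, 0; 0, 2 * H, 1; 0, 1, 0] i j) : False := by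
  have half : ∀ f : R, 2 * f = 0 → f = 0 := fun f h => by linear_combination hf * h - f * h2
  set F := X * X * X + P * X with hF
  have m00 := hm 0 0
  have m01 := hm 0 1
  have m02 := hm 0 2
  have m11 := hm 1 1
  have m12 := hm 1 2
  have m22 := hm 2 2
  simp at m00 m01 m02 m11 m12 m22
  let J : Matrix (Fin 3) (Fin 3) R := 
    !![D 0 X, D 1 X, D 2 X; D 0 Y, D 1 Y, D 2 Y; D 0 T, D 1 T, D 2 T]
  let G : Matrix (Fin 3) (Fin 3) R := !![1, 0, 0; 0, F, hf; 0, hf, 0]
  let g : Matrix (Fin 3) (Fin 3) R := !![1, 0, 0; 0, H, hf; 0, hf, 0]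
  let gi : Matrix (Fin 3) (Fin 3) R := !![Ei, 0, 0; 0, 0, 2 * Ei; 0, 2 * Ei, -4 * H * Ei]
  have hJ : J.transpose * G * J = E • g := by
    ext i j
    have := hm i j
    fin_cases i <;> fin_cases j <;>
      simp [J, G, g, Matrix.mul_apply, Fin.sum_univ_three] at this ⊢ <;>
      first
        | linear_combination hf * this - (D 0 X * D 0 X + F * D 0 Y * D 0 Y - E) * h2
        | linear_combination hf * this - (D 0 X * D 1 X + F * D 0 Y * D 1 Y) * h2
        | linear_combination hf * this - (D 0 X * D 2 X + F * D 0 Y * D 2 Y) * h2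
        | linear_combination hf * this - (D 1 X * D 1 X + F * D 1 Y * D 1 Y - E * H) * h2
        | linear_combination hf * this - (D 1 X * D 2 X + F * D 1 Y * D 2 Y) * h2
        | linear_combination hf * this - (D 2 X * D 2 X + F * D 2 Y * D 2 Y) * h2
  have hg : (E • g) * gi = 1 := by
    ext i j
    fin_cases i <;> fin_cases j <;>
      simp [gi, g, Matrix.mul_apply, Fin.sum_univ_three] <;>
      first
        | linear_combination EE
        | linear_combination (E * Ei) * h2 + EE
        | linear_combination (-2 * H * E * Ei) * h2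
  have h1 : J.transpose * (G * J * gi) = 1 := by
    rw [← hg, ← hJ]
    simp only [Matrix.mul_assoc]
  have h3 := mul_eq_one_comm.1 h1
  have n0 := congrFun (congrFun h3 0) 1
  have n1 := congrFun (congrFun h3 1) 1
  have n2 := congrFun (congrFun h3 2) 1
  simp [J, G, gi, Matrix.mul_apply, Fin.sum_univ_three] at n0 n1 n2
  let k : Fin 3 → R := ![D 0 Y * Ei, 2 * D 2 Y * Ei, (2 * D 1 Y - 4 * H * D 2 Y) * Ei]
  have k0 : k 0 = D 0 Y * Ei := rfl
  have k1 : k 1 = 2 * D 2 Y * Ei := rfl
  have k2 : k 2 = (2 * D 1 Y - 4 * H * D 2 Y) * Ei := rfl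
  have kX : k 0 * D 0 X + k 1 * D 1 X + k 2 * D 2 X = 0 := by
    rw [k0, k1, k2]
    linear_combination n0
  have kY : k 0 * D 0 Y + k 1 * D 1 Y + k 2 * D 2 Y = 0 := by
    rw [k0, k1, k2]
    linear_combination 2 * n2 - (D 0 Y * Ei * D 0 Y + 2 * D 2 Y * Ei * D 1 Y
      + (2 * D 1 Y - 4 * H * D 2 Y) * Ei * D 2 Y) * h2
  have kT : k 0 * D 0 T + k 1 * D 1 T + k 2 * D 2 T = 2 := by
    have kY' := kY
    rw [k0, k1, k2] at kY' ⊢
    linear_combination 2 * n1 - 2 * F * kY' - (D 0 Y * Ei * D 0 T + 2 * D 2 Y * Ei * D 1 T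
      + (2 * D 1 Y - 4 * H * D 2 Y) * Ei * D 2 T) * h2
  have kF : k 0 * D 0 F + k 1 * D 1 F + k 2 * D 2 F = 0 := by
    simp only [hF, Der.map_add, Der.map_mul, hP]
    linear_combination (3 * X * X + P) * kX + Q * X * kY
  have nul : k 0 * k 0 + k 1 * k 1 * H + k 1 * k 2 = 0 := by
    have kY' := kY
    rw [k0, k1, k2] at kY' ⊢
    linear_combination Ei * kY'
  have L := lie D comm k X Y T F _ hm kX kY kT kF
  have l00 := L 0 0
  have l01 := L 0 1
  have l02 := L 0 2
  have l11 := L 1 1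
  have l12 := L 1 2
  have l22 := L 2 2
  clear_value k
  simp [Der.map_mul, Der.map_two, Der.map_zero, Hx, Hy, Ht] at l00 l01 l02 l11 l12 l22
  have Eu : ∀ f : R, E * f = 0 → f = 0 := fun f h => by linear_combination Ei * h - f * EE
  have c00 : 2 * D 0 (k 0) = -(k 0 * D 0 E + k 1 * D 1 E + k 2 * D 2 E) * Ei := by
    rw [← sub_eq_zero]
    apply half
    apply Eu
    linear_combination l00 + 2 * (k 0 * D 0 E + k 1 * D 1 E + k 2 * D 2 E) * EE
  have c01 : 2 * D 1 (k 0) + 2 * H * D 0 (k 1) + D 0 (k 2) = 0 := by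
    apply Eu
    linear_combination l01
  have c02 : 2 * D 2 (k 0) + D 0 (k 1) = 0 := by
    apply Eu
    linear_combination l02
  have c11 : k 0 * H + 2 * H * D 1 (k 1) + D 1 (k 2)
      = -(k 0 * D 0 E + k 1 * D 1 E + k 2 * D 2 E) * Ei * H := by
    rw [← sub_eq_zero]
    apply half
    apply Eu
    linear_combination l11 + 2 * H * (k 0 * D 0 E + k 1 * D 1 E + k 2 * D 2 E) * EE
  have c22 : D 2 (k 1) = 0 := by
    apply half
    apply Eu
    linear_combination l22
  have c12 : D 2 (k 2) + D 1 (k 1) = -(k 0 * D 0 E + k 1 * D 1 E + k 2 * D 2 E) * Ei := by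
    rw [← sub_eq_zero]
    apply Eu
    rw [c22] at l12
    linear_combination l12 + (k 0 * D 0 E + k 1 * D 1 E + k 2 * D 2 E) * EE
  obtain ⟨ha, hb⟩ := ck_null ⟨D 0, D 1, D 2, comm 1 0, comm 2 0, comm 2 1, half⟩ H (k 0) (k 1) (k 2)
    _ Hx Hy Ht (IsUnit.of_mul_eq_one _ HH) c00 c01 c02 c11 c12 c22 nul
  have Eiu : ∀ f : R, f * Ei = 0 → f = 0 := fun f h => by linear_combination E * h - f * EE
  have Yx : D 0 Y = 0 := Eiu _ (by rw [← k0, ha])
  have Yt : D 2 Y = 0 := half _ (Eiu _ (by rw [← k1, hb]))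
  simp only [ha, hb, Der.map_zero] at l00 l01 kT
  have cE : k 2 * E = 2 * D 1 Y := by
    rw [k2, Yt]
    linear_combination 2 * D 1 Y * EE
  have cu : ∀ f : R, k 2 * f = 0 → f = 0 := fun f h => by
    apply half
    linear_combination D 2 T * h - f * kT
  have cx : D 0 (k 2) = 0 := by
    apply Eu
    linear_combination l01
  have Yxy : D 0 (D 1 Y) = 0 := by rw [comm, Yx, Der.map_zero]
  have Ex : D 0 E = 0 := by
    have h := congrArg (D 0) cE
    simp only [Der.map_mul, Der.map_two, cx, Yxy] at h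
    apply cu
    linear_combination h
  have Yu : ∀ f : R, f * D 1 Y = 0 → f = 0 := fun f h => by
    apply cu
    apply Eu
    linear_combination f * cE + 2 * h
  simp only [Yx, Yt, mul_zero, zero_mul, add_zero] at m00 m01 m11
  have Xxx : D 0 (D 0 X) = 0 := by
    have h := congrArg (D 0) m00
    simp only [Der.map_mul, Der.map_two, Ex] at h
    apply half
    apply half
    apply half
    apply Eu
    linear_combination 2 * D 0 X * h - 4 * D 0 (D 0 X) * m00
  have Xxxy : D 0 (D 0 (D 1 X)) = 0 := by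
    rw [comm 0 1, comm 0 1, Xxx, Der.map_zero]
  have Txxx : D 0 (D 0 (D 0 T)) = 0 := by
    have h := congrArg (D 0) (congrArg (D 0) m01)
    simp only [Der.map_add, Der.map_mul, Der.map_two, Der.map_zero, Xxx, Xxxy, Yxy, mul_zero,
      zero_mul, add_zero, zero_add] at h
    exact Yu _ h
  have Txxxy : D 0 (D 0 (D 0 (D 1 T))) = 0 := by
    rw [comm 0 1, comm 0 1, comm 0 1, Txxx, Der.map_zero]
  have Px : D 0 P = 0 := by rw [hP, Yx, mul_zero]
  have h := congrArg (D 0) (congrArg (D 0) (congrArg (D 0) (congrArg (D 0) m11)))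
  simp only [hF, Der.map_add, Der.map_mul, Der.map_two, Der.map_zero, Xxx, Xxxy, Yxy, mul_zero,
    zero_mul, add_zero, zero_add, Txxxy, Px, Ex, Hx] at h
  have h4 : (1 : R) = 0 := by
    apply half
    apply Eu
    linear_combination (-Hi) * h - 2 * E * HH
  exact one_ne_zero h4

end Pool.Agent.H.MP_89bbb3_gt
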