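import Mathlib

open scoped ContDiff

namespace Pool.Agent.H.MP_89bbb3_gt

abbrev W (n : ℕ) := Fin n → ℝ

/-- Coordinate derivative. -/
noncomputable def pd {n : ℕ} (i : Fin n) (f : W n → ℝ) (x : W n) : ℝ :=
  fderiv ℝ f x (Pi.single i 1)

abbrev Met := W 3 → Matrix (Fin 3) (Fin 3) ℝ

/-- Christoffel symbols `Gamma^a_{ij}`. -/
noncomputable def chr (g : Met) (x : W 3) (a i j : Fin 3) : ℝ :=
  ∑ l, (g x)⁻¹ a l *
    (pd i (fun z => g z j l) x + pd j (fun z => g z i l) x - pd l (fun z => g z i j) x) / 2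

/-- Curvature `R^a_{bmn}`. -/
noncomputable def riem (g : Met) (x : W 3) (a b m n : Fin 3) : ℝ :=
  pd m (fun z => chr g z a n b) x - pd n (fun z => chr g z a m b) x
    + ∑ l, (chr g x a m l * chr g x l n b - chr g x a n l * chr g x l m b)

noncomputable def ric (g : Met) (x : W 3) (b d : Fin 3) : ℝ := ∑ a, riem g x a b a d

noncomputable def scal (g : Met) (x : W 3) : ℝ := ∑ a, ∑ b, (g x)⁻¹ a b * ric g x a b

noncomputable def schouten (g : Met) (x : W 3) (a b : Fin 3) : ℝ :=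
  ric g x a b - scal g x / 4 * g x a b

/-- `nabla_a P_{bc}`. -/
noncomputable def dP (g : Met) (x : W 3) (a b c : Fin 3) : ℝ :=
  pd a (fun z => schouten g z b c) x
    - ∑ l, (chr g x l a b * schouten g x l c + chr g x l a c * schouten g x b l)

/-- Cotton tensor `Y_{cab}`. -/
noncomputable def cotton (g : Met) (x : W 3) (c a b : Fin 3) : ℝ := dP g x a b c - dP g x b a c

/-- Smooth metric with one negative and two positive directions. -/
def IsLorentz (g : Met) : Prop :=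
  (∀ i j, ContDiff ℝ ∞ fun x => g x i j) ∧ ∀ x, (g x).IsSymm ∧
    ∃ B : Matrix (Fin 3) (Fin 3) ℝ, B.transpose * g x * B = Matrix.diagonal ![-1, 1, 1]

/-- Smooth vector field with `L_k g = lam g`. -/
def IsCKF (g : Met) (k : W 3 → W 3) : Prop :=
  ContDiff ℝ ∞ k ∧ ∃ lam : W 3 → ℝ, ContDiff ℝ ∞ lam ∧ ∀ x i j,
    ∑ l, (k x l * pd l (fun z => g z i j) x + g x l j * pd i (fun z => k z l) x
      + g x i l * pd j (fun z => k z l) x) = lam x * g x i j

/-- The metric `g_h` in coordinates `(x, y, t)`. -/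
noncomputable def gh (h : ℝ → ℝ) : Met := fun z =>
  !![1, 0, 0; 0, z 0 ^ 3 + h (z 1) * z 0, 1 / 2; 0, 1 / 2, 0]

/-- `phi^* g' = e^(2u) g` on `U`. -/
def Conf (g g' : Met) (U : Set (W 3)) (φ : W 3 → W 3) (u : W 3 → ℝ) : Prop :=
  ∀ z ∈ U, ∀ i j, ∑ a, ∑ b, g' (φ z) a b * pd i (fun w => φ w a) z * pd j (fun w => φ w b) z
    = Real.exp (2 * u z) * g z i j

end Pool.Agent.H.MP_89bbb3_gt
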