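import Pool.Agent.H.MP_89bbb3_gt.A
import Pool.Agent.H.MP_89bbb3_gt.Defs

set_option linter.unusedSimpArgs false

open scoped ContDiff Topology

namespace Pool.Agent.H.MP_89bbb3_gt

section
variable {n : ℕ}

lemma pd_const (m : Fin n) (c : ℝ) (x : W n) : pd m (fun _ => c) x = 0 := by
  simp [pd]

lemma pd_add (m : Fin n) (f g : W n → ℝ) (x : W n) (hf : DifferentiableAt ℝ f x)
    (hg : DifferentiableAt ℝ g x) : pd m (fun z => f z + g z) x = pd m f x + pd m g x := by
  unfold pd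
  rw [fderiv_fun_add hf hg]
  rfl

lemma pd_mul (m : Fin n) (f g : W n → ℝ) (x : W n) (hf : DifferentiableAt ℝ f x)
    (hg : DifferentiableAt ℝ g x) :
    pd m (fun z => f z * g z) x = pd m f x * g x + f x * pd m g x := by
  unfold pd
  rw [fderiv_fun_mul hf hg]
  simp only [add_apply, smul_apply, smul_eq_mul]
  ring

lemma pd_cmul (m : Fin n) (c : ℝ) (g : W n → ℝ) (x : W n) (hg : DifferentiableAt ℝ g x) :
    pd m (fun z => c * g z) x = c * pd m g x := by
  rw [pd_mul m (fun _ => c) g x (by fun_prop) hg, pd_const]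
  ring

lemma pd_comp (m : Fin n) (h : ℝ → ℝ) (g : W n → ℝ) (x : W n)
    (hh : DifferentiableAt ℝ h (g x)) (hg : DifferentiableAt ℝ g x) :
    pd m (fun z => h (g z)) x = deriv h (g x) * pd m g x := by
  unfold pd
  have := hh.hasDerivAt.comp_hasFDerivAt x hg.hasFDerivAt
  have h2 : fderiv ℝ (fun z => h (g z)) x = deriv h (g x) • fderiv ℝ g x := this.fderiv
  rw [h2]
  simp

lemma pd_coord (m j : Fin n) (x : W n) : pd m (fun z : W n => z j) x = if j = m then 1 else 0 := by
  have h1 : HasFDerivAt (fun z : W n => z j)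
      (ContinuousLinearMap.proj (R := ℝ) (φ := fun _ : Fin n => ℝ) j) x :=
    hasFDerivAt_apply j x
  unfold pd
  rw [h1.fderiv]
  simp [Pi.single_apply]

lemma pd_congr (m : Fin n) {f g : W n → ℝ} {x : W n} (h : f =ᶠ[𝓝 x] g) : pd m f x = pd m g x := by
  unfold pd
  rw [h.fderiv_eq]

lemma pd_smooth {U : Set (W n)} (hU : IsOpen U) {f : W n → ℝ} (hf : ContDiffOn ℝ ∞ f U)
    (m : Fin n) : ContDiffOn ℝ ∞ (pd m f) U := by
  have h := hf.fderiv_of_isOpen hU (m := ∞) (by simp)
  exact h.clm_apply contDiffOn_const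

lemma pd_comm {f : W n → ℝ} {x : W n} (hf : ContDiffAt ℝ ∞ f x) (i j : Fin n) :
    pd i (pd j f) x = pd j (pd i f) x := by
  have hs : IsSymmSndFDerivAt ℝ f x := hf.isSymmSndFDerivAt (by simp; exact WithTop.coe_le_coe.2 le_top)
  have hd : DifferentiableAt ℝ (fderiv ℝ f) x :=
    (hf.fderiv_right (m := ∞) (by simp)).differentiableAt (by simp)
  have key : ∀ a b : Fin n, pd a (pd b f) x
      = fderiv ℝ (fderiv ℝ f) x (Pi.single a 1) (Pi.single b 1) := by
    intro a b
    unfold pd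
    rw [fderiv_clm_apply hd (by fun_prop)]
    simp
  rw [key, key, hs]

open Classical in
noncomputable def ext (U : Set (W n)) (f : U → ℝ) (z : W n) : ℝ :=
  if h : z ∈ U then f ⟨z, h⟩ else 0

lemma ext_mem {U : Set (W n)} (f : U → ℝ) {z : W n} (h : z ∈ U) : ext U f z = f ⟨z, h⟩ := by
  simp [ext, h]

def Sm (U : Set (W n)) : Subring (U → ℝ) where
  carrier := {f | ContDiffOn ℝ ∞ (ext U f) U}
  mul_mem' {f g} hf hg :=
    (ContDiffOn.mul hf hg).congr fun z hz => by simp [ext_mem, hz]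
  one_mem' := (contDiffOn_const (c := (1 : ℝ))).congr fun z hz => by simp [ext_mem, hz]
  add_mem' {f g} hf hg :=
    (ContDiffOn.add hf hg).congr fun z hz => by simp [ext_mem, hz]
  zero_mem' := (contDiffOn_const (c := (0 : ℝ))).congr fun z hz => by simp [ext_mem, hz]
  neg_mem' {f} hf := (ContDiffOn.neg hf).congr fun z hz => by simp [ext_mem, hz]

def mk {U : Set (W n)} (F : W n → ℝ) (hF : ContDiffOn ℝ ∞ F U) : Sm U :=
  ⟨fun z => F z, hF.congr fun z hz => by simp [ext_mem, hz]⟩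

lemma mk_apply {U : Set (W n)} (F : W n → ℝ) (hF : ContDiffOn ℝ ∞ F U) (z : U) :
    (mk F hF).1 z = F z := rfl

lemma sm {U : Set (W n)} (f : Sm U) : ContDiffOn ℝ ∞ (ext U f.1) U := f.2

lemma smAt {U : Set (W n)} (hU : IsOpen U) (f : Sm U) (z : U) : ContDiffAt ℝ ∞ (ext U f.1) z :=
  (sm f).contDiffAt (hU.mem_nhds z.2)

lemma dfAt {U : Set (W n)} (hU : IsOpen U) (f : Sm U) (z : U) :
    DifferentiableAt ℝ (ext U f.1) z := (smAt hU f z).differentiableAt (by simp)

lemma pd_ext {U : Set (W n)} (hU : IsOpen U) (f : U → ℝ) (F : W n → ℝ)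
    (h : ∀ z : U, f z = F z) (m : Fin n) (z : U) : pd m (ext U f) z = pd m F z := by
  apply pd_congr
  filter_upwards [hU.mem_nhds z.2] with w hw
  rw [ext_mem f hw, h]

noncomputable def DD {U : Set (W n)} (hU : IsOpen U) (m : Fin n) : Der (Sm U) where
  toFun f := mk (pd m (ext U f.1)) (pd_smooth hU (sm f) m)
  add f g := by
    ext z
    simp only [mk_apply, Subring.coe_add, Pi.add_apply]
    rw [pd_ext hU _ (fun w => ext U f.1 w + ext U g.1 w) (fun w => by simp [ext_mem, w.2]),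
      pd_add _ _ _ _ (dfAt hU f z) (dfAt hU g z)]
  mul f g := by
    ext z
    simp only [mk_apply, Subring.coe_add, Subring.coe_mul, Pi.add_apply, Pi.mul_apply]
    rw [pd_ext hU _ (fun w => ext U f.1 w * ext U g.1 w) (fun w => by simp [ext_mem, w.2]),
      pd_mul _ _ _ _ (dfAt hU f z) (dfAt hU g z), ext_mem _ z.2, ext_mem _ z.2]

lemma DD_apply {U : Set (W n)} (hU : IsOpen U) (m : Fin n) (f : Sm U) (z : U) :
    (DD hU m f).1 z = pd m (ext U f.1) z := rfl

lemma DD_mk {U : Set (W n)} (hU : IsOpen U) (m : Fin n) (F : W n → ℝ) (hF : ContDiffOn ℝ ∞ F U)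
    (z : U) : (DD hU m (mk F hF)).1 z = pd m F z :=
  pd_ext hU _ F (fun _ => rfl) m z

lemma DD_comm {U : Set (W n)} (hU : IsOpen U) (i j : Fin n) (f : Sm U) :
    DD hU i (DD hU j f) = DD hU j (DD hU i f) := by
  ext z
  exact (DD_mk hU i _ (pd_smooth hU (sm f) j) z).trans
    ((pd_comm (smAt hU f z) i j).trans (DD_mk hU j _ (pd_smooth hU (sm f) i) z).symm)

instance (U : Set (W n)) : IsReduced (Sm U) :=
  isReduced_of_injective (Sm U).subtype Subtype.val_injective

lemma nontriv {U : Set (W n)} (hne : U.Nonempty) : Nontrivial (Sm U) := by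
  have := hne.to_subtype
  infer_instance

end

end Pool.Agent.H.MP_89bbb3_gt
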