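import Pool.Agent.H.MP_89bbb3_gt.B

set_option linter.unusedSimpArgs false

open scoped ContDiff Topology

namespace Pool.Agent.H.MP_89bbb3_gt

noncomputable def ee (x : W 3) : ℝ := Real.exp (x 0)

noncomputable def G0 : Met := fun z => !![1, 0, 0; 0, ee z, 1 / 2; 0, 1 / 2, 0]

def dl (i j : Fin 3) : ℝ := if i = j then 1 else 0

@[fun_prop] lemma cd_e {k : WithTop ℕ∞} : ContDiff ℝ k ee := by
  unfold ee
  fun_prop
@[fun_prop] lemma df_e (x : W 3) : DifferentiableAt ℝ ee x := by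
  unfold ee
  fun_prop

lemma pd_e (m : Fin 3) (x : W 3) : pd m ee x = dl m 0 * ee x := by
  unfold ee
  rw [pd_comp m Real.exp (fun z => z 0) x (by fun_prop) (by fun_prop), pd_coord]
  fin_cases m <;> simp [dl]

lemma G0_eq (x : W 3) (i j : Fin 3) : G0 x i j =
    (dl i 0 * dl j 0 + (dl i 1 * dl j 2 + dl i 2 * dl j 1) / 2) + dl i 1 * dl j 1 * ee x := by
  fin_cases i <;> fin_cases j <;> simp [G0, dl]

lemma pd_aff (m : Fin 3) (a b : ℝ) (x : W 3) :
    pd m (fun z => a + b * ee z) x = b * dl m 0 * ee x := by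
  rw [pd_add _ _ _ _ (by fun_prop) (by fun_prop), pd_const, pd_cmul _ _ _ _ (by fun_prop), pd_e]
  ring

lemma pd_lin (m : Fin 3) (b : ℝ) (x : W 3) :
    pd m (fun z => b * ee z) x = b * dl m 0 * ee x := by
  rw [pd_cmul _ _ _ _ (by fun_prop), pd_e]
  ring

lemma G0_inv (x : W 3) : (G0 x)⁻¹ = !![1, 0, 0; 0, 0, 2; 0, 2, -4 * ee x] := by
  apply Matrix.inv_eq_right_inv
  ext i j
  fin_cases i <;> fin_cases j <;> simp [G0, Matrix.mul_apply, Fin.sum_univ_three]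
  ring

lemma chr_G0 (x : W 3) (a i j : Fin 3) : chr G0 x a i j =
    (dl a 2 * (dl i 0 * dl j 1 + dl i 1 * dl j 0) - dl a 0 * dl i 1 * dl j 1 / 2) * ee x := by
  unfold chr
  simp only [G0_eq, pd_aff, G0_inv, Fin.sum_univ_three]
  fin_cases a <;> fin_cases i <;> fin_cases j <;> simp [dl] <;> ring

lemma ric_G0 (x : W 3) (b d : Fin 3) : ric G0 x b d = -(dl b 1 * dl d 1) / 2 * ee x := by
  unfold ric riem
  simp only [chr_G0, pd_lin, Fin.sum_univ_three]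
  fin_cases b <;> fin_cases d <;> simp [dl] <;> ring

lemma sch_G0 (x : W 3) (b d : Fin 3) : schouten G0 x b d = -(dl b 1 * dl d 1) / 2 * ee x := by
  unfold schouten scal
  simp only [ric_G0, G0_inv, Fin.sum_univ_three]
  simp [dl]

lemma cot_G0 (x : W 3) (c a b : Fin 3) : cotton G0 x c a b =
    -(dl c 1 * (dl a 0 * dl b 1 - dl a 1 * dl b 0)) / 2 * ee x := by
  unfold cotton dP
  simp only [sch_G0, chr_G0, pd_lin, Fin.sum_univ_three]
  fin_cases a <;> fin_cases b <;> fin_cases c <;> simp [dl] <;> ring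

theorem not_conf (h : ℝ → ℝ) (hh : ContDiff ℝ ∞ h) (U : Set (W 3)) (hU : IsOpen U)
    (hne : U.Nonempty) (φ : W 3 → W 3) (hφ : ContDiffOn ℝ ∞ φ U) (u : W 3 → ℝ)
    (hu : ContDiffOn ℝ ∞ u U) : ¬ Conf G0 (gh h) U φ u := by
  intro hc
  have := nontriv hne
  have hA : ∀ a, ContDiffOn ℝ ∞ (fun w => φ w a) U := fun a => contDiffOn_pi.1 hφ a
  have hE : ContDiffOn ℝ ∞ (fun w => Real.exp (2 * u w)) U := by fun_prop
  have hEi : ContDiffOn ℝ ∞ (fun w => Real.exp (-(2 * u w))) U := by fun_prop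
  have hH : ContDiffOn ℝ ∞ ee U := cd_e.contDiffOn
  have hHi : ContDiffOn ℝ ∞ (fun w : W 3 => Real.exp (-w 0)) U := by fun_prop
  have hP : ContDiffOn ℝ ∞ (fun w => h (φ w 1)) U := hh.comp_contDiffOn (hA 1)
  have hQ : ContDiffOn ℝ ∞ (fun w => deriv h (φ w 1)) U :=
    (contDiff_infty_iff_deriv.1 hh).2.comp_contDiffOn (hA 1)
  refine no_iso (DD hU) (DD_comm hU) (mk (fun _ => (1 / 2 : ℝ)) contDiffOn_const) ?_
    (mk _ hH) (mk _ hHi) (mk _ (hA 0)) (mk _ (hA 1)) (mk _ (hA 2)) (mk _ hE) (mk _ hEi)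
    (mk _ hP) (mk _ hQ) ?_ ?_ ?_ ?_ ?_ ?_ ?_
  · ext z
    change (2 : ℝ) * (1 / 2) = 1
    norm_num
  · ext z
    change ee z * Real.exp (-z.1 0) = 1
    rw [ee, ← Real.exp_add]
    simp
  · ext z
    change Real.exp (2 * u z) * Real.exp (-(2 * u z)) = 1
    rw [← Real.exp_add]
    simp
  · ext z
    rw [DD_mk, pd_e, mk_apply]
    simp [dl]
  · ext z
    rw [DD_mk, pd_e]
    simp [dl]
  · ext z
    rw [DD_mk, pd_e]
    simp [dl]
  · intro i
    ext z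
    rw [Subring.coe_mul, Pi.mul_apply, DD_mk, DD_mk, mk_apply]
    exact pd_comp i h _ z (hh.differentiable (by simp) _)
      (((hA 1).contDiffAt (hU.mem_nhds z.2)).differentiableAt (by simp))
  · intro i j
    ext z
    have h1 := hc z z.2 i j
    have h2 : ((2 : Sm U) : U → ℝ) z = 2 := rfl
    simp only [Subring.coe_mul, Subring.coe_add, Pi.mul_apply, Pi.add_apply, DD_mk, mk_apply, h2]
    simp [gh, Fin.sum_univ_three] at h1
    have h3 : ((!![2, 0, 0; 0, 2 * mk _ hH, 1; 0, 1, 0] : Matrix (Fin 3) (Fin 3) (Sm U)) i j).1 z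
        = 2 * G0 z i j := by
      fin_cases i <;> fin_cases j <;> simp [G0, h2, mk_apply]
    rw [h3]
    linear_combination 2 * h1

theorem main : ∃ (g : Met) (k : W 3 → W 3), IsLorentz g ∧ IsCKF g k ∧ (∀ x, k x ≠ 0) ∧
    (∀ x a b, ∑ r, cotton g x a b r * k x r = 0) ∧ (∀ p, ∃ c a b, cotton g p c a b ≠ 0) ∧
    ∀ (h : ℝ → ℝ), ContDiff ℝ ∞ h → ∀ U : Set (W 3), IsOpen U → U.Nonempty →
      ∀ (φ : W 3 → W 3) (u : W 3 → ℝ), ContDiffOn ℝ ∞ φ U → ContDiffOn ℝ ∞ u U →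
        ¬ Conf g (gh h) U φ u := by
  refine ⟨G0, fun _ => ![0, 0, 1], ⟨fun i j => ?_, fun x => ⟨?_, ?_⟩⟩,
    ⟨contDiff_const, fun _ => 0, contDiff_const, fun x i j => ?_⟩, fun x h => ?_, fun x a b => ?_,
    fun p => ⟨1, 0, 1, ?_⟩, fun h hh U hU hne φ u hφ hu => not_conf h hh U hU hne φ hφ u hu⟩
  · simp only [G0_eq]
    fun_prop
  · ext i j
    fin_cases i <;> fin_cases j <;> simp [G0]
  · refine ⟨!![0, 1, 0; 1, 0, 1; -1 - ee x, 0, 1 - ee x], ?_⟩
    ext i j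
    fin_cases i <;> fin_cases j <;> simp [G0, Matrix.mul_apply, Fin.sum_univ_three] <;> ring
  · simp only [G0_eq, pd_aff, pd_const, Fin.sum_univ_three]
    simp [dl]
  · simpa using congrFun h 2
  · simp only [cot_G0, Fin.sum_univ_three]
    simp [dl]
  · simp [cot_G0, dl, ee]

end Pool.Agent.H.MP_89bbb3_gt
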